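import Pool.Agent.U503.HP.Stm

/-!
# Project HP, package DL: copies in small balls
-/

set_option autoImplicit false

open Set Filter Topology Function
open Pool.Agent.Y453.HB Pool.Agent.R773.HN Pool.Agent.N235.DH
open Pool.Agent.Y309.HB

namespace Pool.Agent.U765.HP

variable {n : ℕ}

/-- the far point of a ball -/
theorem far (hn : 0 < n) {z q : E n} {r R : ℝ} (hR : 0 < R) (h : D q R ⊆ D z r) :
    nm q + R ≤ nm z + r := by
  obtain ⟨w, hw1, hw2⟩ : ∃ w : E n, nm w = R ∧ nm (q + w) = nm q + R := by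
    by_cases h0 : nm q = 0
    · obtain ⟨w, hw⟩ := exists_vec hn hR
      have hq : q = 0 := by
        have := norm_le_nm q
        rw [h0] at this
        exact norm_le_zero_iff.1 this
      exact ⟨w, hw, by rw [h0, hq, zero_add, zero_add, hw]⟩
    · have h1 : 0 < nm q := lt_of_le_of_ne (nm_nonneg q) (Ne.symm h0)
      refine ⟨(R / nm q) • q, ?_, ?_⟩
      · rw [nm_smul, abs_of_pos (by positivity), div_mul_cancel₀ _ h0]
      · have h2 : q + (R / nm q) • q = (1 + R / nm q) • q := by rw [add_smul, one_smul]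
        rw [h2, nm_smul, abs_of_pos (by positivity), add_mul, div_mul_cancel₀ _ h0, one_mul]
  have h1 : q + w ∈ D q R := by
    show nm (q + w - q) ≤ R
    rw [add_sub_cancel_left, hw1]
  have h2 : nm (q + w - z) ≤ r := h h1
  have h3 := nm_add (q + w - z) z
  rw [sub_add_cancel, hw2] at h3
  linarith

/-- a rescaled copy -/
theorem dil_supp {R : ℝ} (hR : 0 < R) {K : Set (E n)} (hKQ : K ⊆ {p : E n | Q p < 1})
    {w : E n ≃ₜ E n} (hw : ∀ x, x ∉ K → w x = x) :
    Supp (D 0 R) (dil R hR * w * (dil R hR)⁻¹) := by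
  intro x hx
  have hx' : R < nm x := by
    by_contra hc
    push Not at hc
    exact hx (show nm (x - 0) ≤ R by rwa [sub_zero])
  have h1 : R⁻¹ • x ∉ K := by
    intro hc
    have h2 : Q (R⁻¹ • x) < 1 := hKQ hc
    have h3 : nm (R⁻¹ • x) < 1 := by
      unfold nm
      rw [Real.sqrt_lt' one_pos, one_pow]
      exact h2
    rw [nm_smul, abs_of_pos (inv_pos.2 hR), inv_mul_lt_iff₀ hR, mul_one] at h3
    linarith
  rw [mul_apply, mul_apply, dil_inv_apply, dil_apply, hw _ h1, smul_smul,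
    mul_inv_cancel₀ hR.ne', one_smul]

theorem t_DL : Pool.Agent.U503.HP.S_DL := by
  intro n z q r R hn hz hR hsub f hf
  have h0 := far hn hR hsub
  have hq0 := nm_nonneg q
  have hR1 : R ≤ 1 := by linarith
  have hf' := (mem_iff Pool.Agent.Y907.HB.mul Pool.Agent.Y510.HB.inv uc).1 hf
  obtain ⟨K, hK, hKQ, h1, u, h2, h3, h4⟩ := hf'
  have hu := uconv_of uc hK h1 h4
  obtain ⟨R', hR'1, hR'2⟩ := exists_between (show nm q + R < 1 by linarith)
  obtain ⟨κ, hκ, hκs, hκx⟩ := hT n 0 0 q R R' hR (by rw [nm_zero]; linarith)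
    (by rw [sub_zero, nm_zero]; linarith) (by rw [zero_add, sub_zero]; linarith)
  have hd := (uc n).2.2.2.1 R hR
  have hconv : UConv (fun k => dil R hR * u k * (dil R hR)⁻¹) (dil R hR * f * (dil R hR)⁻¹) :=
    uc_mul (uc_mul hd hu) (uc_inv hd)
  have hκc : UConv (fun _ : ℕ => κ) κ := uconv_const (D_compact 0 R') hκs
  have hconv2 : UConv (fun k => κ * (dil R hR * u k * (dil R hR)⁻¹) * κ⁻¹)
      (κ * (dil R hR * f * (dil R hR)⁻¹) * κ⁻¹) := uc_mul (uc_mul hκc hconv) (uc_inv hκc)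
  have him : κ '' D 0 R ⊆ D q R := by
    have := image_D hκx
    rwa [zero_add] at this
  have hS : ∀ w : E n ≃ₜ E n, (∀ x, x ∉ K → w x = x) →
      Supp (D q R) (κ * (dil R hR * w * (dil R hR)⁻¹) * κ⁻¹) := fun w hw =>
    ((dil_supp hR hKQ hw).conj κ).mono him
  refine ⟨κ * (dil R hR * f * (dil R hR)⁻¹) * κ⁻¹, ⟨(hS f h1).mono hsub,
    fun k => κ * (dil R hR * u k * (dil R hR)⁻¹) * κ⁻¹, fun k => (hS (u k) (h2 k)).mono hsub,
    fun k => Pool.Agent.Y907.HB.mul n _ _ (Pool.Agent.Y907.HB.mul n _ _ hκ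
      (Pool.Agent.Y419.HB.dil_ham n R hR hR1 _ (h3 k))) ((Pool.Agent.Y510.HB.inv n).2 _ hκ),
    hconv2.1⟩, hS f h1, fun x => ?_⟩
  by_cases hx : nm x ≤ 1
  · have e1 : κ (R • x) = q + R • x := by
      rw [hκx (R • x) (by
        show nm (R • x - 0) ≤ R
        rw [sub_zero, nm_smul, abs_of_pos hR]
        exact mul_le_of_le_one_right hR.le hx), add_comm]
    have hfK : Supp (D 0 1) f := fun y hy => h1 y fun hc => hy (by
      show nm (y - 0) ≤ 1
      rw [sub_zero]
      unfold nm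
      have h7 : Q y < 1 := hKQ hc
      calc √(Q y) ≤ √1 := Real.sqrt_le_sqrt h7.le
        _ = 1 := Real.sqrt_one)
    have e2 : f x ∈ D 0 1 := hfK.maps (show nm (x - 0) ≤ 1 by rwa [sub_zero])
    have e3 : nm (f x) ≤ 1 := by
      have : nm (f x - 0) ≤ 1 := e2
      rwa [sub_zero] at this
    have e4 : κ (R • f x) = q + R • f x := by
      rw [hκx (R • f x) (by
        show nm (R • f x - 0) ≤ R
        rw [sub_zero, nm_smul, abs_of_pos hR]
        exact mul_le_of_le_one_right hR.le e3), add_comm]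
    rw [← e1, mul_apply, mul_apply, inv_apply_self, mul_apply, mul_apply, dil_inv_apply,
      dil_apply, smul_smul, inv_mul_cancel₀ hR.ne', one_smul, e4]
  · push Not at hx
    have hxK : x ∉ K := by
      intro hc
      have h5 : Q x < 1 := hKQ hc
      have h6 : nm x < 1 := by
        unfold nm
        rw [Real.sqrt_lt' one_pos, one_pow]
        exact h5
      linarith
    rw [h1 x hxK]
    refine hS f h1 _ ?_
    intro hc
    have h5 : nm (q + R • x - q) ≤ R := hc
    rw [add_sub_cancel_left, nm_smul, abs_of_pos hR] at h5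
    nlinarith

end Pool.Agent.U765.HP
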